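import Pool.Agent.Helper85.ExtDefs
import Pool.Agent.Helper85.ExtProof

open Pool.Agent.Helper85.Ext

namespace Pool.Agent.Results.MP_34b196_pr.Continuum

universe u

/-- If the global extinction vector `q` and the vector `q~` of probabilities that every type is
present in only finitely many generations are different, then the set of fixed points `s` of the
generating function with `q ≤ s ≤ q~` has the cardinality of the continuum. -/
theorem result {X : Type u} [Countable X] (μ : X → PMF (X →₀ ℕ)) (h : globalExt μ ≠ localExt μ) :
    Cardinal.mk {s : X → ℝ // (∀ x, s x ∈ Set.Icc (0 : ℝ) 1) ∧ genFun μ s = s ∧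
      globalExt μ ≤ s ∧ s ≤ localExt μ} = Cardinal.continuum :=
  continuum_fixedPoints μ h

end Pool.Agent.Results.MP_34b196_pr.Continuum
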